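import Mathlib

/-!
# The Wilson quotients of order `n`: the recursion
-/

set_option autoImplicit false

namespace Pool.Agent.K9h54.WQ

open Finset
open scoped Nat

/-- The Wilson quotient of order `n` of `p`: `((-1) ^ n (n - 1)! (p - n)! - 1) / p`. -/
def wq (n p : ℕ) : ℤ := ((-1) ^ n * ((n - 1)! * (p - n)! : ℕ) - 1) / p

lemma fac_step {n p : ℕ} (h1 : 1 ≤ n) (h2 : n < p) :
    ((p : ℤ) - n) * ((-1) ^ (n + 1) * ((n + 1 - 1)! * (p - (n + 1))! : ℕ)) =
      -(n : ℤ) * ((-1) ^ n * ((n - 1)! * (p - n)! : ℕ)) := by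
  have e1 : (p - n)! = (p - n) * (p - (n + 1))! := by
    have : p - n = (p - (n + 1)) + 1 := by omega
    rw [this, Nat.factorial_succ]
  have e2 : (n + 1 - 1)! = n * (n - 1)! := by
    rw [Nat.add_sub_cancel]
    exact (Nat.mul_factorial_pred (by omega)).symm
  rw [e1, e2]
  push_cast [Nat.cast_sub h2.le]
  ring

lemma wilson_gen {p : ℕ} (hp : p.Prime) {n : ℕ} (h1 : 1 ≤ n) (h2 : n ≤ p) :
    (p : ℤ) ∣ (-1) ^ n * ((n - 1)! * (p - n)! : ℕ) - 1 := by
  have : Fact p.Prime := ⟨hp⟩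
  induction n, h1 using Nat.le_induction with
  | base =>
    rw [← ZMod.intCast_zmod_eq_zero_iff_dvd]
    push_cast
    have h := ZMod.wilsons_lemma p
    simp only [Nat.sub_self, Nat.factorial_zero, Nat.cast_one, one_mul, pow_one]
    rw [h]
    ring
  | succ n h1 ih =>
    have hlt : n < p := by omega
    have h := ih hlt.le
    have hs := fac_step h1 hlt
    generalize ((-1) ^ (n + 1) * (((n + 1 - 1)! * (p - (n + 1))! : ℕ) : ℤ)) = A at hs ⊢
    generalize ((-1) ^ n * (((n - 1)! * (p - n)! : ℕ) : ℤ)) = B at hs h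
    rw [← ZMod.intCast_zmod_eq_zero_iff_dvd] at h ⊢
    have hs' := congrArg (Int.cast : ℤ → ZMod p) hs
    have hn0 : (n : ZMod p) ≠ 0 := by
      intro h0
      rw [ZMod.natCast_eq_zero_iff] at h0
      exact absurd (Nat.le_of_dvd (by omega) h0) (by omega)
    push_cast at hs' h ⊢
    rw [ZMod.natCast_self, zero_sub] at hs'
    have h3 := mul_left_cancel₀ (neg_ne_zero.2 hn0) hs'
    rw [h3]
    exact h

lemma wq_eq {p : ℕ} (hp : p.Prime) {n : ℕ} (h1 : 1 ≤ n) (h2 : n ≤ p) :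
    (p : ℤ) * wq n p + 1 = (-1) ^ n * ((n - 1)! * (p - n)! : ℕ) := by
  unfold wq
  rw [Int.mul_ediv_cancel' (wilson_gen hp h1 h2)]
  ring

/-- `p` is a Wilson prime of order `n` if and only if it divides the quotient -/
lemma wilson_iff {p : ℕ} (hp : p.Prime) {n : ℕ} (h1 : 1 ≤ n) (h2 : n ≤ p) :
    (p : ℤ) ∣ wq n p ↔ (p : ℤ) ^ 2 ∣ ((n - 1)! * (p - n)! : ℕ) - (-1) ^ n := by
  have hp0 : (p : ℤ) ≠ 0 := by exact_mod_cast hp.ne_zero
  have e : (((n - 1)! * (p - n)! : ℕ) : ℤ) - (-1) ^ n = (-1) ^ n * (p * wq n p) := by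
    have h := wq_eq hp h1 h2
    have h' : (p : ℤ) * wq n p = (-1) ^ n * ((n - 1)! * (p - n)! : ℕ) - 1 := by linarith
    rw [h', mul_sub, ← mul_assoc, ← mul_pow]
    norm_num
  rw [e, pow_two]
  have hu : IsUnit ((-1 : ℤ) ^ n) := (isUnit_one.neg).pow n
  rw [hu.dvd_mul_left, mul_dvd_mul_iff_left hp0]

lemma step {p : ℕ} (hp : p.Prime) {n : ℕ} (h1 : 1 ≤ n) (h2 : n < p) :
    (n : ℤ) * (wq (n + 1) p - wq n p) = 1 + p * wq (n + 1) p := by
  have a := wq_eq hp h1 h2.le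
  have b := wq_eq hp (show 1 ≤ n + 1 by omega) (show n + 1 ≤ p by omega)
  have hs := fac_step h1 h2
  rw [← a, ← b] at hs
  have hp0 : (p : ℤ) ≠ 0 := by exact_mod_cast hp.ne_zero
  have : (p : ℤ) * ((n : ℤ) * (wq (n + 1) p - wq n p)) = p * (1 + p * wq (n + 1) p) := by linarith
  exact mul_left_cancel₀ hp0 this

/-- the differences: if `Q / j` is an integer for the `j` of the block then
`Q (wq n' - wq n) ≡ ∑ Q / j` modulo `p` -/
lemma diff_dvd {p : ℕ} (hp : p.Prime) {n n' : ℕ} (h1 : 1 ≤ n) (hnn : n ≤ n') (h2 : n' ≤ p) (Q : ℕ)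
    (hQ : ∀ j ∈ Ico n n', j ∣ Q) :
    (p : ℤ) ∣ Q * (wq n' p - wq n p) - ∑ j ∈ Ico n n', ((Q / j : ℕ) : ℤ) := by
  induction n', hnn using Nat.le_induction with
  | base => simp
  | succ m hm ih =>
    have h3 := ih (by omega) fun j hj => hQ j (by rw [mem_Ico] at hj ⊢; omega)
    have hs := step hp (h1.trans hm) (show m < p by omega)
    have hj : m ∣ Q := hQ m (by rw [mem_Ico]; omega)
    obtain ⟨k, rfl⟩ := hj
    have hm0 : 0 < m := by omega
    rw [sum_Ico_succ_top hm, Nat.mul_div_cancel_left k hm0]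
    have e : ((m * k : ℕ) : ℤ) * (wq (m + 1) p - wq n p) - (∑ j ∈ Ico n m, ((m * k / j : ℕ) : ℤ) + (k : ℤ)) =
        (((m * k : ℕ) : ℤ) * (wq m p - wq n p) - ∑ j ∈ Ico n m, ((m * k / j : ℕ) : ℤ)) +
        p * (k * wq (m + 1) p) := by
      push_cast
      linear_combination (k : ℤ) * hs
    rw [e]
    exact dvd_add h3 (dvd_mul_right _ _)

end Pool.Agent.K9h54.WQ
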