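import Pool.Agent.K9h54.WQ.Mom
import Pool.Agent.R485.Trans.Saw

/-!
# The mean discrepancy of the Wilson quotients of consecutive orders
-/

set_option autoImplicit false

namespace Pool.Agent.K9h54.WQ

open Finset

open Pool.Agent.H469R2.NK (e norm_e e_add e_zero)

lemma num (A : ℕ) : ∃ x0 : ℕ, ∀ x : ℕ, x0 ≤ x → 1 ≤ Nat.sqrt x ∧ Nat.sqrt x ≤ x ∧ Real.log x ^ A ≤ Nat.sqrt x ∧
    ∀ h N Q : ℕ, h ≤ N → N ≤ Q → (Q : ℝ) ≤ Real.log x ^ A →
      (N : ℝ) ^ 2 * (Q * (x / Real.log x ^ (3 * A + 2) + Nat.sqrt x) + 7 * (h * N * x / Nat.sqrt x)) ≤ H343E.pi1 x ∧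
      (N : ℝ) * Nat.sqrt x ≤ H343E.pi1 x := by
  obtain ⟨x1, h1⟩ := Pool.Agent.H442R2.EHI.Four8.ev_log (4 * A + 2) 15
  obtain ⟨x2, h2⟩ := Pool.Agent.H442R2.EHI.Four8.ev_L 4
  obtain ⟨x3, h3⟩ := Filter.eventually_atTop.1 (Pool.Agent.H387R2.Uni.pi1_lower (show (0 : ℝ) < 1 / 2 by norm_num))
  refine ⟨max (max x1 x2) (max x3 4), fun x hx => ?_⟩
  have g1 := h1 x (by omega)
  have g2 := h2 x (by omega)
  have g3 := h3 x (by omega)
  have hx4 : 4 ≤ x := by omega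
  set L := Real.log x with hL
  set y := Nat.sqrt x with hy
  have hy2 : y * y ≤ x := Nat.sqrt_le x
  have hy3 : x < (y + 1) * (y + 1) := Nat.lt_succ_sqrt x
  have hy1 : 2 ≤ y := by
    by_contra hc
    have : y ≤ 1 := by omega
    nlinarith
  have hyx : y ≤ x := by nlinarith
  have hyR : (2 : ℝ) ≤ y := by exact_mod_cast hy1
  have hxR : (4 : ℝ) ≤ x := by exact_mod_cast hx4
  have hs0 : 0 ≤ √(x : ℝ) := Real.sqrt_nonneg _
  have hss : √(x : ℝ) * √(x : ℝ) = x := Real.mul_self_sqrt (by linarith)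
  have hys : (y : ℝ) ≤ √x := by
    apply Real.le_sqrt_of_sq_le
    rw [pow_two]
    exact_mod_cast hy2
  have hys' : √(x : ℝ) ≤ 2 * y := by
    have k1 : (x : ℝ) ≤ (y + 1) * (y + 1) := by exact_mod_cast hy3.le
    have k2 : √(x : ℝ) ≤ y + 1 := by
      rw [Real.sqrt_le_left (by linarith), pow_two]
      exact k1
    linarith
  have hL1 : 1 ≤ L := by linarith
  have hL0 : 0 < L := by linarith
  have hLA : L ^ A ≤ L ^ (4 * A) := pow_le_pow_right₀ hL1 (by omega)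
  have hL3 : L ^ (3 * A) ≤ L ^ (4 * A) := pow_le_pow_right₀ hL1 (by omega)
  have hbig : 15 * (L ^ (4 * A) * L ^ 2) ≤ √x := by
    rw [← pow_add]
    exact g1
  have hL2 : 16 ≤ L ^ 2 := by nlinarith
  have h4A : 1 ≤ L ^ (4 * A) := one_le_pow₀ hL1
  have hpi : 2 * (x / L ^ 2) ≤ H343E.pi1 x := by
    refine le_trans ?_ g3
    rw [pow_two, ← div_div, mul_div_assoc']
    rw [div_le_iff₀ hL0]
    have : 0 ≤ (x : ℝ) / L := by positivity
    nlinarith
  have hkey : 15 * L ^ (4 * A) * √x ≤ x / L ^ 2 := by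
    rw [le_div_iff₀ (by positivity)]
    calc 15 * L ^ (4 * A) * √x * L ^ 2 = 15 * (L ^ (4 * A) * L ^ 2) * √x := by ring
      _ ≤ √x * √x := mul_le_mul_of_nonneg_right hbig hs0
      _ = x := hss
  refine ⟨by omega, hyx, ?_, ?_⟩
  · have k1 : L ^ A * 15 * 16 ≤ √x := by
      calc L ^ A * 15 * 16 ≤ L ^ (4 * A) * 15 * L ^ 2 := by gcongr
        _ = 15 * (L ^ (4 * A) * L ^ 2) := by ring
        _ ≤ √x := hbig
    have k2 : 0 ≤ L ^ A := by positivity
    linarith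
  · intro h N Q hhN hNQ hQ
    have hN : (N : ℝ) ≤ L ^ A := le_trans (by exact_mod_cast hNQ) hQ
    have hh : (h : ℝ) ≤ L ^ A := le_trans (by exact_mod_cast hhN) hN
    have hN0 : (0 : ℝ) ≤ N := Nat.cast_nonneg _
    have hh0 : (0 : ℝ) ≤ h := Nat.cast_nonneg _
    have hQ0 : (0 : ℝ) ≤ Q := Nat.cast_nonneg _
    have hx0 : (0 : ℝ) ≤ x := by linarith
    have hlA : 0 ≤ L ^ A := by positivity
    have e3 : L ^ (3 * A) = L ^ A * L ^ A * L ^ A := by rw [← pow_add, ← pow_add]; congr 1; ring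
    have e4 : L ^ (4 * A) = L ^ A * L ^ A * L ^ A * L ^ A := by
      rw [← pow_add, ← pow_add, ← pow_add]; congr 1; ring
    have t1 : (N : ℝ) ^ 2 * Q * (x / L ^ (3 * A + 2)) ≤ x / L ^ 2 := by
      have k1 : (N : ℝ) ^ 2 * Q ≤ L ^ (3 * A) := by
        rw [e3, pow_two]
        gcongr
      have k2 : (x : ℝ) / L ^ (3 * A + 2) = x / L ^ 2 / L ^ (3 * A) := by
        rw [div_div, ← pow_add]
        congr 2
        ring
      rw [k2]
      have k3 : 0 < L ^ (3 * A) := by positivity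
      have k4 : 0 ≤ (x : ℝ) / L ^ 2 := by positivity
      calc (N : ℝ) ^ 2 * Q * (x / L ^ 2 / L ^ (3 * A)) ≤ L ^ (3 * A) * (x / L ^ 2 / L ^ (3 * A)) := by gcongr
        _ = x / L ^ 2 := by field_simp
    have t2 : (N : ℝ) ^ 2 * Q * y ≤ L ^ (4 * A) * √x := by
      have k1 : (N : ℝ) ^ 2 * Q ≤ L ^ (3 * A) := by
        rw [e3, pow_two]
        gcongr
      calc (N : ℝ) ^ 2 * Q * y ≤ L ^ (3 * A) * √x := by gcongr
        _ ≤ L ^ (4 * A) * √x := by gcongr
    have t3 : (x : ℝ) / y ≤ 2 * √x := by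
      rw [div_le_iff₀ (by linarith)]
      nlinarith
    have t4 : (N : ℝ) ^ 2 * (7 * (h * N * x / y)) ≤ 14 * L ^ (4 * A) * √x := by
      have e5 : (N : ℝ) ^ 2 * (7 * (h * N * x / y)) = 7 * (N * N * N * h) * (x / y) := by ring
      rw [e5]
      have k1 : (N : ℝ) * N * N * h ≤ L ^ (4 * A) := by
        rw [e4]
        gcongr
      calc 7 * ((N : ℝ) * N * N * h) * (x / y) ≤ 7 * L ^ (4 * A) * (2 * √x) := by gcongr
        _ = 14 * L ^ (4 * A) * √x := by ring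
    constructor
    · have e6 : (N : ℝ) ^ 2 * (Q * (x / L ^ (3 * A + 2) + y) + 7 * (h * N * x / y)) =
          (N : ℝ) ^ 2 * Q * (x / L ^ (3 * A + 2)) + (N : ℝ) ^ 2 * Q * y + (N : ℝ) ^ 2 * (7 * (h * N * x / y)) := by ring
      rw [e6]
      linarith
    · have k1 : (N : ℝ) * y ≤ L ^ (4 * A) * √x := by
        calc (N : ℝ) * y ≤ L ^ A * √x := by gcongr
          _ ≤ L ^ (4 * A) * √x := by gcongr
      have k2 : 0 ≤ L ^ (4 * A) * √x := by positivity
      have k3 : 0 ≤ (x : ℝ) / L ^ 2 := by positivity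
      linarith

/-- the sum over the frequencies -/
lemma freq_sum (N : ℕ) : ∑ h ∈ Icc 1 N, √((2 : ℝ) ^ padicValNat 2 h) / h ≤ 4 * (1 + Real.log N) := by
  classical
  have : Fact (Nat.Prime 2) := ⟨Nat.prime_two⟩
  set g : ℕ × ℕ → ℝ := fun q => (1 / √2) ^ q.1 * (1 / (q.2 : ℝ)) with hg
  set φ : ℕ → ℕ × ℕ := fun h => (padicValNat 2 h, h / 2 ^ padicValNat 2 h) with hφ
  have hinj : Set.InjOn φ (Icc 1 N : Finset ℕ) := by
    intro a _ b _ hab
    rw [hφ] at hab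
    simp only [Prod.mk.injEq] at hab
    obtain ⟨h1, h2⟩ := hab
    have k1 : 2 ^ padicValNat 2 a ∣ a := pow_padicValNat_dvd
    have k2 : 2 ^ padicValNat 2 b ∣ b := pow_padicValNat_dvd
    calc a = 2 ^ padicValNat 2 a * (a / 2 ^ padicValNat 2 a) := (Nat.mul_div_cancel' k1).symm
      _ = 2 ^ padicValNat 2 b * (b / 2 ^ padicValNat 2 b) := by rw [h2, h1]
      _ = b := Nat.mul_div_cancel' k2
  have hval : ∀ h ∈ Icc 1 N, √((2 : ℝ) ^ padicValNat 2 h) / h = g (φ h) := by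
    intro h hh
    rw [mem_Icc] at hh
    set v := padicValNat 2 h with hv
    have k1 : 2 ^ v ∣ h := pow_padicValNat_dvd
    obtain ⟨m, hm⟩ := k1
    have hm' : h / 2 ^ v = m := by rw [hm]; exact Nat.mul_div_cancel_left _ (by positivity)
    have hm0 : (m : ℝ) ≠ 0 := by
      have : m ≠ 0 := by
        rintro rfl
        omega
      exact_mod_cast this
    rw [hg, hφ]
    simp only
    rw [← hv, hm']
    have hc : (h : ℝ) = 2 ^ v * m := by rw [hm]; push_cast; ring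
    rw [hc]
    have hsq : √((2 : ℝ) ^ v) = √2 ^ v := by
      rw [Real.sqrt_eq_iff_mul_self_eq (by positivity) (by positivity), ← mul_pow, Real.mul_self_sqrt (by norm_num)]
    have h2 : (2 : ℝ) ^ v = √2 ^ v * √2 ^ v := by rw [← mul_pow, Real.mul_self_sqrt (by norm_num)]
    rw [hsq, h2, one_div_pow]
    have : (√(2 : ℝ)) ^ v ≠ 0 := by positivity
    field_simp
  rw [sum_congr rfl hval, ← sum_image (f := g) (g := φ) hinj]
  have hsub : (Icc 1 N).image φ ⊆ range (N + 1) ×ˢ Icc 1 N := by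
    intro q hq
    rw [mem_image] at hq
    obtain ⟨h, hh, rfl⟩ := hq
    rw [mem_Icc] at hh
    rw [hφ]
    simp only
    rw [mem_product, mem_range, mem_Icc]
    have k1 : 2 ^ padicValNat 2 h ∣ h := pow_padicValNat_dvd
    have k2 := Nat.le_of_dvd (by omega) k1
    have k3 : padicValNat 2 h < 2 ^ padicValNat 2 h := Nat.lt_two_pow_self
    refine ⟨by simp only; omega, Nat.div_pos k2 (by positivity), (Nat.div_le_self _ _).trans hh.2⟩
  refine (sum_le_sum_of_subset_of_nonneg hsub fun q _ _ => by rw [hg]; positivity).trans ?_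
  rw [sum_product]
  simp only [hg]
  rw [← sum_mul_sum]
  have b1 : ∑ v ∈ range (N + 1), (1 / √(2 : ℝ)) ^ v ≤ 4 := by
    have hr : 1 / √(2 : ℝ) < 3 / 4 := by
      have : (4 : ℝ) / 3 < √2 := by
        apply Real.lt_sqrt_of_sq_lt
        norm_num
      rw [div_lt_iff₀ (by positivity)]
      nlinarith
    have hr0 : 0 ≤ 1 / √(2 : ℝ) := by positivity
    calc ∑ v ∈ range (N + 1), (1 / √(2 : ℝ)) ^ v ≤ ∑ v ∈ range (N + 1), (3 / 4 : ℝ) ^ v := by gcongr
      _ ≤ (1 - 3 / 4 : ℝ)⁻¹ := by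
        have := geom_sum_eq (show (3 / 4 : ℝ) ≠ 1 by norm_num) (N + 1)
        rw [this]
        have h0 : (0 : ℝ) ≤ (3 / 4) ^ (N + 1) := by positivity
        rw [div_le_iff_of_neg (by norm_num)]
        norm_num
      _ = 4 := by norm_num
  have b2 : ∑ m ∈ Icc 1 N, 1 / (m : ℝ) ≤ 1 + Real.log N := by
    have h1 := harmonic_le_one_add_log N
    rw [harmonic_eq_sum_Icc] at h1
    push_cast at h1
    simpa only [one_div] using h1
  have b3 : 0 ≤ ∑ m ∈ Icc 1 N, 1 / (m : ℝ) := by positivity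
  exact mul_le_mul b1 b2 b3 (by norm_num)

open Classical in
/-- the number of the orders in the block for which the quotient is in the arc -/
noncomputable def cnt (M N p : ℕ) (α β : ℝ) : ℕ :=
  ((Ioc M (M + N)).filter fun n => α ≤ Int.fract ((wq n p : ℝ) / p) ∧ Int.fract ((wq n p : ℝ) / p) < β).card

/-- the inequality of Erdős and Turán -/
lemma disc (M N p : ℕ) (hN : 1 ≤ N) (α β : ℝ) (h0 : 0 ≤ α) (h1 : α ≤ β) (h2 : β ≤ 1) :
    |(cnt M N p α β : ℝ) - N * (β - α)| ≤ 2 * ∑ h ∈ Icc 1 N, ‖SS M N h p‖ / h + 4 * √N := by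
  classical
  have hsum0 : 0 ≤ ∑ h ∈ Icc 1 N, ‖SS M N h p‖ / (h : ℝ) := by positivity
  have hs0 : 0 ≤ √(N : ℝ) := Real.sqrt_nonneg _
  rcases eq_or_lt_of_le h1 with heq | hlt
  · have : cnt M N p α β = 0 := by
      unfold cnt
      rw [card_eq_zero, filter_eq_empty_iff]
      intro n _ hc
      rw [heq] at hc
      linarith [hc.1, hc.2]
    rw [this, heq]
    simp only [Nat.cast_zero, sub_self, mul_zero, abs_zero]
    positivity
  set I := Ioc M (M + N) with hI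
  have hcard : (I.card : ℝ) = N := by rw [hI, Nat.card_Ioc, Nat.add_sub_cancel_left]
  have hN0 : (0 : ℝ) < N := by exact_mod_cast hN
  have hsN : 0 < √(N : ℝ) := Real.sqrt_pos.2 hN0
  have hsN1 : 1 ≤ √(N : ℝ) := by
    rw [Real.one_le_sqrt]
    exact_mod_cast hN
  have hss : √(N : ℝ) * √(N : ℝ) = N := Real.mul_self_sqrt hN0.le
  have hsaw : ∀ γ : ℝ, |∑ n ∈ I, (Int.fract ((wq n p : ℝ) / p - γ) - 1 / 2)| ≤
      ∑ h ∈ Icc 1 N, ‖SS M N h p‖ / h + 2 * √N := by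
    intro γ
    have k1 := Pool.Agent.R485.Trans.saw_bound I (fun n => (wq n p : ℝ) / p - γ) N hN (1 / √N) (by positivity)
      (by rw [div_le_one hsN]; exact hsN1)
    refine k1.trans ?_
    have k2 : ∀ h ∈ Icc 1 N, ‖∑ n ∈ I, e ((h : ℝ) * ((wq n p : ℝ) / p - γ))‖ / (h : ℝ) = ‖SS M N h p‖ / h := by
      intro h _
      congr 1
      have k3 : ∑ n ∈ I, e ((h : ℝ) * ((wq n p : ℝ) / p - γ)) = SS M N h p * e (-(h * γ)) := by
        unfold SS
        rw [sum_mul]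
        apply sum_congr rfl
        intro n _
        rw [← e_add]
        congr 1
        ring
      rw [k3, norm_mul, norm_e, mul_one]
    rw [sum_congr rfl k2, hcard]
    have k4 : (N : ℝ) / (N * (1 / √N)) = √N := by
      field_simp
    have k5 : (N : ℝ) * (1 / √N) = √N := by
      rw [mul_one_div, div_eq_iff hsN.ne']
      exact hss.symm
    rw [k4, k5]
    linarith
  have hcnt : (cnt M N p α β : ℝ) - N * (β - α) =
      ∑ n ∈ I, (Int.fract ((wq n p : ℝ) / p - β) - 1 / 2) - ∑ n ∈ I, (Int.fract ((wq n p : ℝ) / p - α) - 1 / 2) := by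
    rw [← sum_sub_distrib]
    have k1 : ∀ n ∈ I, (Int.fract ((wq n p : ℝ) / p - β) - 1 / 2) - (Int.fract ((wq n p : ℝ) / p - α) - 1 / 2) =
        (if α ≤ Int.fract ((wq n p : ℝ) / p) ∧ Int.fract ((wq n p : ℝ) / p) < β then (1 : ℝ) else 0) - (β - α) :=
      fun n _ => (Pool.Agent.R485.Trans.indicator_eq _ α β h0 hlt h2).symm
    rw [sum_congr rfl k1, sum_sub_distrib, sum_const, nsmul_eq_mul, hcard]
    congr 1
    unfold cnt
    rw [← sum_boole]
  rw [hcnt]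
  have a1 := hsaw β
  have a2 := hsaw α
  refine (abs_sub _ _).trans ?_
  linarith

/-- **the mean discrepancy** -/
theorem main (A : ℕ) : ∃ x0 : ℕ, ∀ x : ℕ, x0 ≤ x → ∀ M N : ℕ, 2 ≤ N →
    ((∏ j ∈ Ioc M (M + N), j : ℕ) : ℝ) ≤ Real.log x ^ A → ∀ α β : ℕ → ℝ,
    (∀ p, 0 ≤ α p ∧ α p ≤ β p ∧ β p ≤ 1) →
    ∑ p ∈ (Icc 1 x).filter (fun p => p.Prime ∧ M + N ≤ p), |(cnt M N p (α p) (β p) : ℝ) - N * (β p - α p)| ≤
      100 * (√N * Real.log N) * ((Icc 1 x).filter Nat.Prime).card := by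
  obtain ⟨x1, h1⟩ := num A
  obtain ⟨x2, h2⟩ := second (3 * A + 2) A
  refine ⟨max x1 x2, fun x hx M N hN hQ α β hab => ?_⟩
  obtain ⟨c1, c2, c3, c4⟩ := h1 x (by omega)
  set y := Nat.sqrt x with hy
  set Q := ∏ j ∈ Ioc M (M + N), j with hQdef
  have hQpos : 0 < Q := prod_pos fun j hj => by rw [mem_Ioc] at hj; omega
  haveI : NeZero Q := ⟨hQpos.ne'⟩
  have hQj : ∀ j ∈ Ioc M (M + N), j ∣ Q := fun j hj => dvd_prod_of_mem _ hj
  have hMNQ : M + N ≤ Q := Nat.le_of_dvd hQpos (hQj _ (by rw [mem_Ioc]; omega))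
  have hMNy : M + N ≤ y := by
    have k1 : ((M + N : ℕ) : ℝ) ≤ y := le_trans (by exact_mod_cast hMNQ) (hQ.trans c3)
    exact_mod_cast k1
  have hNQ : N ≤ Q := by omega
  set P := (Ioc y x).filter Nat.Prime with hP
  set π := H343E.pi1 x with hπ
  have hπe : π = (((Icc 1 x).filter Nat.Prime).card : ℝ) := rfl
  have hπ0 : 0 ≤ π := by rw [hπe]; positivity
  have hcop : ∀ p ∈ P, p.Coprime Q := by
    intro p hp
    rw [hP, mem_filter, mem_Ioc] at hp
    rw [hQdef]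
    apply Nat.Coprime.prod_right
    intro j hj
    rw [mem_Ioc] at hj
    rw [Nat.Prime.coprime_iff_not_dvd hp.2]
    intro hd
    have := Nat.le_of_dvd (by omega) hd
    omega
  have hN0 : (0 : ℝ) < N := by exact_mod_cast (by omega : 0 < N)
  have hPc : (P.card : ℝ) ≤ π := by
    rw [hπe]
    have : P.card ≤ ((Icc 1 x).filter Nat.Prime).card := by
      apply card_le_card
      intro p hp
      rw [hP, mem_filter, mem_Ioc] at hp
      rw [mem_filter, mem_Icc]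
      exact ⟨⟨by omega, hp.1.2⟩, hp.2⟩
    exact_mod_cast this
  -- first moments
  have hfirst : ∀ h ∈ Icc 1 N, ∑ p ∈ P, ‖SS M N h p‖ ≤ 3 * √((2 : ℝ) ^ padicValNat 2 h) * √N * π := by
    intro h hh
    rw [mem_Icc] at hh
    have k1 := h2 x (by omega) Q hQ y c1 c2 hcop h M N (by omega) hMNy hQj
    have k2 := (c4 h N Q hh.2 hNQ hQ).1
    have hv1 : (1 : ℝ) ≤ 2 ^ padicValNat 2 h := one_le_pow₀ (by norm_num)
    have hN1 : (1 : ℝ) ≤ N := by exact_mod_cast (by omega : 1 ≤ N)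
    have k3 : ∑ p ∈ P, ‖SS M N h p‖ ^ 2 ≤ 9 * (2 ^ padicValNat 2 h * N) * π := by
      have k4 : (1 : ℝ) ≤ 2 ^ padicValNat 2 h * N := by nlinarith
      have k5 : π ≤ 2 ^ padicValNat 2 h * N * π := by nlinarith
      calc _ ≤ 8 * 2 ^ padicValNat 2 h * N * π + π := k1.trans (by linarith)
        _ ≤ _ := by linarith
    have k4 : (∑ p ∈ P, ‖SS M N h p‖) ^ 2 ≤ P.card * ∑ p ∈ P, ‖SS M N h p‖ ^ 2 := sq_sum_le_card_mul_sum_sq
    have k5 : (∑ p ∈ P, ‖SS M N h p‖) ^ 2 ≤ (3 * √((2 : ℝ) ^ padicValNat 2 h) * √N * π) ^ 2 := by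
      have e1 : (3 * √((2 : ℝ) ^ padicValNat 2 h) * √N * π) ^ 2 = π * (9 * (2 ^ padicValNat 2 h * N) * π) := by
        have s1 : √((2 : ℝ) ^ padicValNat 2 h) ^ 2 = 2 ^ padicValNat 2 h := Real.sq_sqrt (by positivity)
        have s2 : √(N : ℝ) ^ 2 = N := Real.sq_sqrt hN0.le
        calc _ = 9 * (√((2 : ℝ) ^ padicValNat 2 h) ^ 2) * (√(N : ℝ) ^ 2) * π ^ 2 := by ring
          _ = _ := by rw [s1, s2]; ring
      rw [e1]
      refine k4.trans ?_
      have s3 : 0 ≤ ∑ p ∈ P, ‖SS M N h p‖ ^ 2 := by positivity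
      exact mul_le_mul hPc k3 s3 hπ0
    exact abs_le_of_sq_le_sq' k5 (by positivity) |>.2
  -- the large primes
  have hlarge : ∑ p ∈ P, |(cnt M N p (α p) (β p) : ℝ) - N * (β p - α p)| ≤
      24 * √N * (1 + Real.log N) * π + 4 * √N * π := by
    have k1 : ∑ p ∈ P, |(cnt M N p (α p) (β p) : ℝ) - N * (β p - α p)| ≤
        ∑ p ∈ P, (2 * ∑ h ∈ Icc 1 N, ‖SS M N h p‖ / h + 4 * √N) := by
      apply sum_le_sum
      intro p _
      exact disc M N p (by omega) (α p) (β p) (hab p).1 (hab p).2.1 (hab p).2.2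
    refine k1.trans ?_
    rw [sum_add_distrib, ← mul_sum, sum_comm, sum_const, nsmul_eq_mul]
    have k2 : ∑ h ∈ Icc 1 N, ∑ p ∈ P, ‖SS M N h p‖ / h ≤ 3 * √N * π * (4 * (1 + Real.log N)) := by
      have k3 : ∀ h ∈ Icc 1 N, ∑ p ∈ P, ‖SS M N h p‖ / h ≤ 3 * √N * π * (√((2 : ℝ) ^ padicValNat 2 h) / h) := by
        intro h hh
        rw [← sum_div]
        have k4 := hfirst h hh
        have hh0 : (0 : ℝ) < h := by
          rw [mem_Icc] at hh
          exact_mod_cast hh.1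
        calc (∑ p ∈ P, ‖SS M N h p‖) / h ≤ (3 * √((2 : ℝ) ^ padicValNat 2 h) * √N * π) / h := by gcongr
          _ = _ := by ring
      refine (sum_le_sum k3).trans ?_
      rw [← mul_sum]
      apply mul_le_mul_of_nonneg_left (freq_sum N)
      positivity
    have k4 : (P.card : ℝ) * (4 * √N) ≤ π * (4 * √N) := by gcongr
    linarith
  -- the small primes
  have hsub : (Icc 1 x).filter (fun p => p.Prime ∧ M + N ≤ p) ⊆ Icc 1 y ∪ P := by
    intro p hp
    rw [mem_filter, mem_Icc] at hp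
    rw [mem_union, mem_Icc, hP, mem_filter, mem_Ioc]
    rcases le_or_gt p y with h | h
    · exact Or.inl ⟨hp.1.1, h⟩
    · exact Or.inr ⟨⟨h, hp.1.2⟩, hp.2.1⟩
  have hdis : Disjoint (Icc 1 y) P := by
    rw [disjoint_left]
    intro p h1 h2
    rw [mem_Icc] at h1
    rw [hP, mem_filter, mem_Ioc] at h2
    omega
  have hsmall : ∑ p ∈ Icc 1 y, |(cnt M N p (α p) (β p) : ℝ) - N * (β p - α p)| ≤ π := by
    have k1 : ∀ p ∈ Icc 1 y, |(cnt M N p (α p) (β p) : ℝ) - N * (β p - α p)| ≤ N := by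
      intro p _
      have k2 : (cnt M N p (α p) (β p) : ℝ) ≤ N := by
        have : cnt M N p (α p) (β p) ≤ N := by
          unfold cnt
          refine (card_filter_le _ _).trans ?_
          rw [Nat.card_Ioc, Nat.add_sub_cancel_left]
        exact_mod_cast this
      have k3 : (0 : ℝ) ≤ cnt M N p (α p) (β p) := Nat.cast_nonneg _
      obtain ⟨a1, a2, a3⟩ := hab p
      have k4 : 0 ≤ N * (β p - α p) := mul_nonneg hN0.le (by linarith)
      have k5 : N * (β p - α p) ≤ N * 1 := mul_le_mul_of_nonneg_left (by linarith) hN0.le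
      rw [abs_le]
      constructor <;> linarith
    refine (sum_le_card_nsmul _ _ _ k1).trans ?_
    rw [Nat.card_Icc, Nat.add_sub_cancel, nsmul_eq_mul, mul_comm]
    exact (c4 N N Q le_rfl hNQ hQ).2
  have htot : ∑ p ∈ (Icc 1 x).filter (fun p => p.Prime ∧ M + N ≤ p), |(cnt M N p (α p) (β p) : ℝ) - N * (β p - α p)| ≤
      π + (24 * √N * (1 + Real.log N) * π + 4 * √N * π) := by
    refine (sum_le_sum_of_subset_of_nonneg hsub fun _ _ _ => abs_nonneg _).trans ?_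
    rw [sum_union hdis]
    exact add_le_add hsmall hlarge
  refine htot.trans ?_
  rw [← hπe]
  have hlog : 0.69 < Real.log N := by
    have k1 : Real.log 2 ≤ Real.log N := Real.log_le_log (by norm_num) (by exact_mod_cast hN)
    have k2 := Real.log_two_gt_d9
    linarith
  have hsq : 1.4 ≤ √(N : ℝ) := by
    apply Real.le_sqrt_of_sq_le
    have : (2 : ℝ) ≤ N := by exact_mod_cast hN
    norm_num
    linarith
  have e1 : 100 * (√N * Real.log N) * π - (π + (24 * √N * (1 + Real.log N) * π + 4 * √N * π)) =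
      (√N * (76 * Real.log N - 28) - 1) * π := by ring
  have k1 : 0 ≤ (√N * (76 * Real.log N - 28) - 1) * π := by
    apply mul_nonneg _ hπ0
    have : (20 : ℝ) ≤ 76 * Real.log N - 28 := by linarith
    nlinarith
  linarith

end Pool.Agent.K9h54.WQ
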