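import Pool.Agent.K9h54.WQ.Fin

/-!
# Long blocks of orders
-/

set_option autoImplicit false

namespace Pool.Agent.K9h54.WQ

open Finset

lemma cnt_add (M N₁ N₂ p : ℕ) (α β : ℝ) : cnt M (N₁ + N₂) p α β = cnt M N₁ p α β + cnt (M + N₁) N₂ p α β := by
  classical
  unfold cnt
  have e : Ioc M (M + (N₁ + N₂)) = Ioc M (M + N₁) ∪ Ioc (M + N₁) (M + N₁ + N₂) := by
    ext n
    rw [mem_union, mem_Ioc, mem_Ioc, mem_Ioc]
    omega
  rw [e, filter_union, card_union_of_disjoint]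
  apply disjoint_filter_filter
  rw [disjoint_left]
  intro n h1 h2
  rw [mem_Ioc] at h1 h2
  omega

lemma blocks {A x K : ℕ} (hK : 2 ≤ K) {α β : ℕ → ℝ} {B : ℝ} {T : ℕ}
    (h : ∀ M N : ℕ, K ≤ N → N < 2 * K → M + N ≤ T →
      ∑ p ∈ (Icc 1 x).filter (fun p => p.Prime ∧ T ≤ p), |(cnt M N p (α p) (β p) : ℝ) - N * (β p - α p)| ≤ B) :
    ∀ q : ℕ, 1 ≤ q → ∀ M N : ℕ, q * K ≤ N → N < (q + 1) * K → M + N ≤ T →
      ∑ p ∈ (Icc 1 x).filter (fun p => p.Prime ∧ T ≤ p), |(cnt M N p (α p) (β p) : ℝ) - N * (β p - α p)| ≤ q * B := by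
  intro q hq
  induction q, hq using Nat.le_induction with
  | base =>
    intro M N h1 h2 h3
    rw [Nat.cast_one, one_mul]
    exact h M N (by omega) (by omega) h3
  | succ q hq ih =>
    intro M N h1 h2 h3
    have hKN : K ≤ N := by nlinarith
    obtain ⟨N', rfl⟩ : ∃ N', N = K + N' := ⟨N - K, by omega⟩
    have k1 := ih (M + K) N' (by nlinarith) (by nlinarith) (by omega)
    have k2 := h M K le_rfl (by omega) (by omega)
    have k3 : ∑ p ∈ (Icc 1 x).filter (fun p => p.Prime ∧ T ≤ p),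
        |(cnt M (K + N') p (α p) (β p) : ℝ) - ((K + N' : ℕ) : ℝ) * (β p - α p)| ≤
        ∑ p ∈ (Icc 1 x).filter (fun p => p.Prime ∧ T ≤ p),
        (|(cnt M K p (α p) (β p) : ℝ) - K * (β p - α p)| + |(cnt (M + K) N' p (α p) (β p) : ℝ) - N' * (β p - α p)|) := by
      apply sum_le_sum
      intro p _
      rw [cnt_add]
      refine le_trans (le_of_eq ?_) (abs_add_le _ _)
      congr 1
      push_cast
      ring
    refine k3.trans ?_
    rw [sum_add_distrib]
    push_cast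
    linarith

/-- **the mean discrepancy of a long block** -/
theorem main2 (A : ℕ) : ∃ x0 : ℕ, ∀ x : ℕ, x0 ≤ x → ∀ M N K : ℕ, 2 ≤ K → K ≤ N →
    ((M + N : ℕ) : ℝ) ^ K ≤ Real.log x ^ A → ∀ α β : ℕ → ℝ,
    (∀ p, 0 ≤ α p ∧ α p ≤ β p ∧ β p ≤ 1) →
    ∑ p ∈ (Icc 1 x).filter (fun p => p.Prime ∧ M + N ≤ p), |(cnt M N p (α p) (β p) : ℝ) - N * (β p - α p)| ≤
      300 * (N / √K * Real.log K) * ((Icc 1 x).filter Nat.Prime).card := by
  obtain ⟨x0, h0⟩ := main (2 * A)
  obtain ⟨x1, h1⟩ := Pool.Agent.H442R2.EHI.Four8.ev_L 1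
  refine ⟨max x0 x1, fun x hx M N K hK hKN hMN α β hab => ?_⟩
  have hL := h1 x (by omega)
  set π : ℝ := (((Icc 1 x).filter Nat.Prime).card : ℝ) with hπ
  have hπ0 : 0 ≤ π := by rw [hπ]; positivity
  have hKR : (2 : ℝ) ≤ K := by exact_mod_cast hK
  have hK0 : (0 : ℝ) < K := by linarith
  have hlK : 0 < Real.log K := Real.log_pos (by linarith)
  have hsK : 0 < √(K : ℝ) := Real.sqrt_pos.2 hK0
  have hq1 : 1 ≤ N / K := Nat.div_pos hKN (by omega)
  have hblk : ∀ M' N' : ℕ, K ≤ N' → N' < 2 * K → M' + N' ≤ M + N →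
      ∑ p ∈ (Icc 1 x).filter (fun p => p.Prime ∧ M + N ≤ p), |(cnt M' N' p (α p) (β p) : ℝ) - N' * (β p - α p)| ≤
      300 * (√K * Real.log K) * π := by
    intro M' N' a1 a2 a3
    have hprod : ((∏ j ∈ Ioc M' (M' + N'), j : ℕ) : ℝ) ≤ Real.log x ^ (2 * A) := by
      have k1 : ∏ j ∈ Ioc M' (M' + N'), j ≤ (M + N) ^ N' := by
        refine (prod_le_pow_card _ _ (M + N) ?_).trans ?_
        · intro j hj
          rw [mem_Ioc] at hj
          omega
        · rw [Nat.card_Ioc, Nat.add_sub_cancel_left]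
      have k2 : (M + N) ^ N' ≤ ((M + N) ^ K) ^ 2 := by
        rw [← pow_mul]
        apply Nat.pow_le_pow_right (by omega)
        omega
      have k3 : (((M + N) ^ K : ℕ) : ℝ) ≤ Real.log x ^ A := by
        push_cast at hMN ⊢
        exact hMN
      calc ((∏ j ∈ Ioc M' (M' + N'), j : ℕ) : ℝ) ≤ ((((M + N) ^ K) ^ 2 : ℕ) : ℝ) := by exact_mod_cast k1.trans k2
        _ = (((M + N) ^ K : ℕ) : ℝ) ^ 2 := by push_cast; ring
        _ ≤ (Real.log x ^ A) ^ 2 := by gcongr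
        _ = Real.log x ^ (2 * A) := by rw [← pow_mul, mul_comm]
    have k1 := h0 x (by omega) M' N' (by omega) hprod α β hab
    have hsub : (Icc 1 x).filter (fun p => p.Prime ∧ M + N ≤ p) ⊆
        (Icc 1 x).filter (fun p => p.Prime ∧ M' + N' ≤ p) := by
      intro p hp
      rw [mem_filter] at hp ⊢
      exact ⟨hp.1, hp.2.1, a3.trans hp.2.2⟩
    refine (sum_le_sum_of_subset_of_nonneg hsub fun _ _ _ => abs_nonneg _).trans (k1.trans ?_)
    rw [← hπ]
    apply mul_le_mul_of_nonneg_right _ hπ0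
    have hN'R : (N' : ℝ) ≤ 2 * K := by exact_mod_cast a2.le
    have hN'0 : (0 : ℝ) < N' := by exact_mod_cast (by omega : 0 < N')
    have k2 : √(N' : ℝ) ≤ 3 / 2 * √K := by
      rw [Real.sqrt_le_left (by positivity), mul_pow, Real.sq_sqrt hK0.le]
      linarith
    have k3 : Real.log N' ≤ 2 * Real.log K := by
      have : Real.log N' ≤ Real.log (K * K) := Real.log_le_log hN'0 (by nlinarith)
      rw [Real.log_mul hK0.ne' hK0.ne'] at this
      linarith
    have k4 : 0 ≤ Real.log N' := Real.log_natCast_nonneg _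
    calc 100 * (√(N' : ℝ) * Real.log N') ≤ 100 * (3 / 2 * √K * (2 * Real.log K)) := by gcongr
      _ = 300 * (√K * Real.log K) := by ring
  have hmain := blocks (A := A) hK hblk (N / K) hq1 M N (Nat.div_mul_le_self _ _) (by
    have := Nat.lt_div_mul_add (a := N) (b := K) (by omega)
    rw [add_mul, one_mul]
    exact this) le_rfl
  refine hmain.trans ?_
  have k1 : ((N / K : ℕ) : ℝ) ≤ N / K := Nat.cast_div_le
  have k2 : 0 ≤ 300 * (√K * Real.log K) * π := by positivity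
  refine (mul_le_mul_of_nonneg_right k1 k2).trans (le_of_eq ?_)
  have hss : √(K : ℝ) * √(K : ℝ) = K := Real.mul_self_sqrt hK0.le
  field_simp
  rw [pow_two, hss]

end Pool.Agent.K9h54.WQ
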