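import Pool.Agent.K9h54.WQ.Pair
import Pool.Agent.H387R2.U3

/-!
# The mean square of the exponential sums over the orders
-/

set_option autoImplicit false

namespace Pool.Agent.K9h54.WQ

open Finset
open scoped Nat
open Pool.Agent.H469R2.NK (e norm_e e_add e_zero)
open Pool.Agent.H442R2.EHI.Four8 (norm_e_sub_one_le)

/-- two orders which are not too near -/
lemma pair_bound (U K : ℕ) : ∃ x0 : ℕ, ∀ x : ℕ, x0 ≤ x → ∀ (Q : ℕ) [NeZero Q], (Q : ℝ) ≤ Real.log x ^ K → ∀ y : ℕ, 1 ≤ y →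
    y ≤ x → (∀ p ∈ (Ioc y x).filter Nat.Prime, p.Coprime Q) → ∀ h n n' N : ℕ, h ≠ 0 → 1 ≤ n →
    n + 2 ^ (padicValNat 2 h + 2) ≤ n' → n' ≤ n + N → n' ≤ y → (∀ j ∈ Ico n n', j ∣ Q) →
    ‖∑ p ∈ (Ioc y x).filter Nat.Prime, e ((h : ℝ) * ((wq n' p : ℝ) - wq n p) / p)‖ ≤
      Q * (x / Real.log x ^ U + y) + 7 * (h * N * x / y) := by
  obtain ⟨x0, h0⟩ := prime_sum U K
  refine ⟨x0, fun x hx Q _ hQK y hy1 hyx hcop h n n' N hh h1 hd hnN hny hQ => ?_⟩
  set P := (Ioc y x).filter Nat.Prime with hP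
  set C := ∑ j ∈ Ico n n', Q / j with hC
  have hpow : 0 < 2 ^ (padicValNat 2 h + 2) := Nat.pow_pos (by norm_num)
  have hnn : n ≤ n' := by omega
  set F : ZMod Q → ℂ := fun r => ZMod.stdAddChar (N := Q) (-((h : ZMod Q) * (C : ZMod Q)) * r⁻¹) with hF
  have hy0 : (0 : ℝ) < y := by exact_mod_cast hy1
  have hQ0 : (0 : ℝ) < Q := by exact_mod_cast Nat.pos_of_ne_zero (NeZero.ne Q)
  have hmain := h0 x hx Q hQK y hyx F (fun r => by
    rw [hF]
    exact le_of_eq (AddChar.norm_apply _ _)) (by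
    have := zero_sum (Q := Q) h1 hd hQ rfl hh
    rw [← this]
    apply sum_congr rfl
    intro u _
    rw [hF]
    simp only
    rw [ZMod.inv_coe_unit]) hcop
  have hsplit : ∑ p ∈ P, e ((h : ℝ) * ((wq n' p : ℝ) - wq n p) / p) =
      ∑ p ∈ P, F (p : ZMod Q) + ∑ p ∈ P, (e ((h : ℝ) * (C : ℝ) / (p * Q)) - 1) * F (p : ZMod Q) := by
    rw [← sum_add_distrib]
    apply sum_congr rfl
    intro p hp
    have hp' := hp
    rw [hP, mem_filter, mem_Ioc] at hp
    rw [e_pair hp.2 h1 hnn (by omega) hQ (hcop p hp')]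
    rw [hF]
    ring
  rw [hsplit]
  refine (norm_add_le _ _).trans (add_le_add hmain ?_)
  have hCle : (C : ℝ) ≤ N * Q := by
    have k1 : C ≤ (n' - n) * Q := by
      have := sum_le_card_nsmul (Ico n n') (fun j => Q / j) Q fun j _ => Nat.div_le_self _ _
      rwa [Nat.card_Ico, smul_eq_mul] at this
    have k2 : (n' - n) * Q ≤ N * Q := Nat.mul_le_mul_right _ (by omega)
    exact_mod_cast k1.trans k2
  have hterm : ∀ p ∈ P, ‖(e ((h : ℝ) * (C : ℝ) / (p * Q)) - 1) * F (p : ZMod Q)‖ ≤ 7 * (h * N / y) := by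
    intro p hp
    rw [hP, mem_filter, mem_Ioc] at hp
    have hpy : (y : ℝ) ≤ p := by exact_mod_cast hp.1.1.le
    have hp0 : (0 : ℝ) < p := hy0.trans_le hpy
    have hF1 : ‖F (p : ZMod Q)‖ = 1 := by rw [hF]; exact AddChar.norm_apply _ _
    rw [norm_mul, hF1, mul_one]
    refine (norm_e_sub_one_le _).trans ?_
    have k1 : |(h : ℝ) * (C : ℝ) / (p * Q)| ≤ h * N / y := by
      rw [abs_of_nonneg (by positivity), div_le_div_iff₀ (by positivity) hy0]
      calc (h : ℝ) * C * y ≤ h * (N * Q) * p := by gcongr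
        _ = h * N * (p * Q) := by ring
    have k2 : Real.pi ≤ 3.15 := Real.pi_lt_d2.le
    have k3 : 0 ≤ (h : ℝ) * N / y := by positivity
    calc 2 * Real.pi * |(h : ℝ) * (C : ℝ) / (p * Q)| ≤ 2 * Real.pi * (h * N / y) := by
          have := Real.pi_pos
          gcongr
      _ ≤ 7 * (h * N / y) := by nlinarith
  refine (norm_sum_le _ _).trans ((sum_le_card_nsmul _ _ _ hterm).trans ?_)
  rw [nsmul_eq_mul]
  have hPc : (P.card : ℝ) ≤ x := by
    have k1 : P.card ≤ x := by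
      refine (card_filter_le _ _).trans ?_
      rw [Nat.card_Ioc]
      omega
    exact_mod_cast k1
  calc (P.card : ℝ) * (7 * (h * N / y)) ≤ x * (7 * (h * N / y)) := by
        apply mul_le_mul_of_nonneg_right hPc
        positivity
    _ = 7 * (h * N * x / y) := by ring

/-- the exponential sum over the orders of the block -/
noncomputable def SS (M N h p : ℕ) : ℂ := ∑ n ∈ Ioc M (M + N), e ((h : ℝ) * ((wq n p : ℝ) / p))

lemma conj_e (t : ℝ) : (starRingEnd ℂ) (e t) = e (-t) := by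
  unfold e
  rw [← Complex.exp_conj]
  congr 1
  rw [map_mul, Complex.conj_ofReal, Complex.conj_I]
  push_cast
  ring

lemma normSq_SS (M N h p : ℕ) : ((‖SS M N h p‖ ^ 2 : ℝ) : ℂ) =
    ∑ q ∈ Ioc M (M + N) ×ˢ Ioc M (M + N), e ((h : ℝ) * ((wq q.2 p : ℝ) - wq q.1 p) / p) := by
  rw [sum_product_right]
  push_cast
  rw [← Complex.mul_conj']
  unfold SS
  rw [map_sum, sum_mul_sum]
  apply sum_congr rfl
  intro n _
  apply sum_congr rfl
  intro n' _
  rw [conj_e, ← e_add]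
  congr 1
  ring

/-- the number of the near pairs -/
lemma near_card (M N D : ℕ) : ((Ioc M (M + N) ×ˢ Ioc M (M + N)).filter
    (fun q => ¬ q.1 + D ≤ q.2 ∧ ¬ q.2 + D ≤ q.1)).card ≤ N * (2 * D) := by
  have h1 : ((Ioc M (M + N) ×ˢ Ioc M (M + N)).filter
      (fun q => ¬ q.1 + D ≤ q.2 ∧ ¬ q.2 + D ≤ q.1)) ⊆
      (Ioc M (M + N)).biUnion fun n => (Ico (n - D) (n + D)).image fun n' => (n, n') := by
    intro q hq
    rw [mem_filter, mem_product] at hq
    rw [mem_biUnion]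
    refine ⟨q.1, hq.1.1, ?_⟩
    rw [mem_image]
    refine ⟨q.2, ?_, rfl⟩
    rw [mem_Ico]
    omega
  refine (card_le_card h1).trans (card_biUnion_le.trans ?_)
  have h2 : ∀ n ∈ Ioc M (M + N), ((Ico (n - D) (n + D)).image fun n' => (n, n')).card ≤ 2 * D := by
    intro n _
    refine card_image_le.trans ?_
    rw [Nat.card_Ico]
    omega
  refine (sum_le_card_nsmul _ _ _ h2).trans ?_
  rw [Nat.card_Ioc, smul_eq_mul, Nat.add_sub_cancel_left]

/-- **the mean square** -/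
lemma second (U K : ℕ) : ∃ x0 : ℕ, ∀ x : ℕ, x0 ≤ x → ∀ (Q : ℕ) [NeZero Q], (Q : ℝ) ≤ Real.log x ^ K → ∀ y : ℕ, 1 ≤ y →
    y ≤ x → (∀ p ∈ (Ioc y x).filter Nat.Prime, p.Coprime Q) → ∀ h M N : ℕ, h ≠ 0 →
    M + N ≤ y → (∀ j ∈ Ioc M (M + N), j ∣ Q) →
    ∑ p ∈ (Ioc y x).filter Nat.Prime, ‖SS M N h p‖ ^ 2 ≤
      8 * 2 ^ padicValNat 2 h * N * H343E.pi1 x + (N : ℝ) ^ 2 * (Q * (x / Real.log x ^ U + y) + 7 * (h * N * x / y)) := by
  obtain ⟨x0, h0⟩ := pair_bound U K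
  refine ⟨x0, fun x hx Q _ hQK y hy1 hyx hcop h M N hh hMN hQ => ?_⟩
  set P := (Ioc y x).filter Nat.Prime with hP
  set I := Ioc M (M + N) with hI
  set E := Q * (x / Real.log x ^ U + y) + 7 * (h * N * x / y) with hE
  set D := 2 ^ (padicValNat 2 h + 2) with hD
  have hE0 : 0 ≤ E := by
    have h1 := Real.log_natCast_nonneg x
    rw [hE]
    positivity
  have hnear : ∀ q ∈ I ×ˢ I, ‖∑ p ∈ P, e ((h : ℝ) * ((wq q.2 p : ℝ) - wq q.1 p) / p)‖ ≤
      if ¬ q.1 + D ≤ q.2 ∧ ¬ q.2 + D ≤ q.1 then (P.card : ℝ) else E := by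
    intro q hq
    rw [mem_product, hI, mem_Ioc, mem_Ioc] at hq
    split_ifs with hc
    · refine (norm_sum_le _ _).trans ?_
      rw [sum_congr rfl fun p _ => norm_e _, sum_const, nsmul_eq_mul, mul_one]
    · by_cases h1 : q.1 + D ≤ q.2
      · exact h0 x hx Q hQK y hy1 hyx hcop h q.1 q.2 N hh (by omega) h1 (by omega) (by omega)
          fun j hj => hQ j (by rw [mem_Ico] at hj; rw [mem_Ioc]; omega)
      · have h2 : q.2 + D ≤ q.1 := by
          by_contra h3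
          exact hc ⟨h1, h3⟩
        have h3 := h0 x hx Q hQK y hy1 hyx hcop h q.2 q.1 N hh (by omega) h2 (by omega) (by omega)
          fun j hj => hQ j (by rw [mem_Ico] at hj; rw [mem_Ioc]; omega)
        have h4 : ∑ p ∈ P, e ((h : ℝ) * ((wq q.2 p : ℝ) - wq q.1 p) / p) =
            (starRingEnd ℂ) (∑ p ∈ P, e ((h : ℝ) * ((wq q.1 p : ℝ) - wq q.2 p) / p)) := by
          rw [map_sum]
          apply sum_congr rfl
          intro p _
          rw [conj_e]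
          congr 1
          ring
        rw [h4, RCLike.norm_conj]
        exact h3
  have hsum : ((∑ p ∈ P, ‖SS M N h p‖ ^ 2 : ℝ) : ℂ) =
      ∑ q ∈ I ×ˢ I, ∑ p ∈ P, e ((h : ℝ) * ((wq q.2 p : ℝ) - wq q.1 p) / p) := by
    rw [sum_comm, Complex.ofReal_sum]
    exact sum_congr rfl fun p _ => normSq_SS M N h p
  have hreal : ∑ p ∈ P, ‖SS M N h p‖ ^ 2 ≤
      ∑ q ∈ I ×ˢ I, if ¬ q.1 + D ≤ q.2 ∧ ¬ q.2 + D ≤ q.1 then (P.card : ℝ) else E := by
    have k1 : ‖((∑ p ∈ P, ‖SS M N h p‖ ^ 2 : ℝ) : ℂ)‖ = ∑ p ∈ P, ‖SS M N h p‖ ^ 2 := by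
      rw [Complex.norm_real, Real.norm_eq_abs, abs_of_nonneg (sum_nonneg fun p _ => by positivity)]
    rw [← k1, hsum]
    exact (norm_sum_le _ _).trans (sum_le_sum hnear)
  refine hreal.trans ?_
  rw [sum_ite, sum_const, sum_const, nsmul_eq_mul, nsmul_eq_mul]
  have hPc : (P.card : ℝ) ≤ H343E.pi1 x := by
    unfold H343E.pi1
    have : P.card ≤ ((Icc 1 x).filter (fun p => p.Prime)).card := by
      apply card_le_card
      intro p hp
      rw [hP, mem_filter, mem_Ioc] at hp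
      rw [mem_filter, mem_Icc]
      exact ⟨⟨by omega, hp.1.2⟩, hp.2⟩
    exact_mod_cast this
  have hP0 : (0 : ℝ) ≤ P.card := Nat.cast_nonneg _
  apply add_le_add
  · have k1 := near_card M N D
    have k2 : (((I ×ˢ I).filter (fun q => ¬ q.1 + D ≤ q.2 ∧ ¬ q.2 + D ≤ q.1)).card : ℝ) ≤ N * (2 * D) := by
      exact_mod_cast k1
    have k3 : (D : ℝ) = 4 * 2 ^ padicValNat 2 h := by
      rw [hD]
      push_cast
      rw [pow_add]
      ring
    calc _ ≤ (N * (2 * D) : ℝ) * H343E.pi1 x := by gcongr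
      _ = 8 * 2 ^ padicValNat 2 h * N * H343E.pi1 x := by rw [k3]; ring
  · apply mul_le_mul_of_nonneg_right _ hE0
    have k1 : ((I ×ˢ I).filter (fun q => ¬ (¬ q.1 + D ≤ q.2 ∧ ¬ q.2 + D ≤ q.1))).card ≤ N * N := by
      refine (card_filter_le _ _).trans ?_
      rw [card_product, hI, Nat.card_Ioc, Nat.add_sub_cancel_left]
    calc _ ≤ ((N * N : ℕ) : ℝ) := by exact_mod_cast k1
      _ = (N : ℝ) ^ 2 := by push_cast; ring

end Pool.Agent.K9h54.WQ
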