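import Mathlib

/-!
# A complete exponential sum over the units vanishes
-/

set_option autoImplicit false

namespace Pool.Agent.K9h54.WQ

open Finset

lemma v2_iff {k j : ℕ} (hj : j ≠ 0) : 2 ^ k ∣ j ↔ k ≤ padicValNat 2 j := by
  have : Fact (Nat.Prime 2) := ⟨Nat.prime_two⟩
  exact padicValNat_dvd_iff_le hj

/-- the largest power of two in a block -/
lemma block_max {n n' v : ℕ} (h1 : 1 ≤ n) (hd : n + 2 ^ v ≤ n') : ∃ j0 ∈ Ico n n', v ≤ padicValNat 2 j0 ∧
    ∀ j ∈ Ico n n', j ≠ j0 → padicValNat 2 j < padicValNat 2 j0 := by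
  have hpow : 0 < 2 ^ v := Nat.pow_pos (by norm_num)
  have hne : (Ico n n').Nonempty := ⟨n, by rw [mem_Ico]; omega⟩
  obtain ⟨j0, hj0, hmax⟩ := exists_max_image (Ico n n') (padicValNat 2) hne
  refine ⟨j0, hj0, ?_, ?_⟩
  · -- a multiple of `2 ^ v`
    obtain ⟨q, hq⟩ : ∃ q, q = (n + 2 ^ v - 1) / 2 ^ v := ⟨_, rfl⟩
    have k1 : 2 ^ v * q ≤ n + 2 ^ v - 1 := by rw [hq]; exact Nat.mul_div_le _ _
    have k2 : n + 2 ^ v - 1 < 2 ^ v * (q + 1) := by
      rw [hq]
      exact Nat.lt_mul_div_succ _ hpow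
    rw [mul_add, mul_one] at k2
    have hmem : 2 ^ v * q ∈ Ico n n' := by rw [mem_Ico]; omega
    have h0 : 2 ^ v * q ≠ 0 := by
      have := (mem_Ico.1 hmem).1
      omega
    exact ((v2_iff h0).1 (dvd_mul_right _ _)).trans (hmax _ hmem)
  · intro j hj hne'
    have hle := hmax j hj
    rcases lt_or_eq_of_le hle with h | h
    · exact h
    exfalso
    rw [mem_Ico] at hj hj0
    set e := padicValNat 2 j0 with he
    have hj0' : j0 ≠ 0 := by omega
    have hj' : j ≠ 0 := by omega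
    obtain ⟨a, ha⟩ := (v2_iff hj').2 h.ge
    obtain ⟨b, hb⟩ := (v2_iff hj0').2 he.le
    have hpe : 0 < 2 ^ e := Nat.pow_pos (by norm_num)
    have hab : a ≠ b := by
      rintro rfl
      exact hne' (by rw [ha, hb])
    have ha2 : a % 2 = 1 := by
      by_contra h2
      obtain ⟨c, hc⟩ : ∃ c, a = 2 * c := ⟨a / 2, by omega⟩
      have : 2 ^ (e + 1) ∣ j := ⟨c, by rw [ha, hc, pow_succ]; ring⟩
      have := (v2_iff hj').1 this
      omega
    have hb2 : b % 2 = 1 := by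
      by_contra h2
      obtain ⟨c, hc⟩ : ∃ c, b = 2 * c := ⟨b / 2, by omega⟩
      have : 2 ^ (e + 1) ∣ j0 := ⟨c, by rw [hb, hc, pow_succ]; ring⟩
      have := (v2_iff hj0').1 this
      omega
    -- the next multiple above the smaller one
    obtain ⟨m, hm1, hm2, hm3⟩ : ∃ m, min a b < m ∧ m < max a b ∧ m % 2 = 0 := by
      refine ⟨min a b + 1, by omega, ?_, ?_⟩
      · rcases lt_or_gt_of_ne hab with h | h
        · rw [min_eq_left h.le, max_eq_right h.le]
          omega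
        · rw [min_eq_right h.le, max_eq_left h.le]
          omega
      · rcases lt_or_gt_of_ne hab with h | h
        · rw [min_eq_left h.le]
          omega
        · rw [min_eq_right h.le]
          omega
    have hmem : 2 ^ e * m ∈ Ico n n' := by
      rw [mem_Ico]
      rcases lt_or_gt_of_ne hab with h | h
      · rw [min_eq_left h.le] at hm1
        rw [max_eq_right h.le] at hm2
        have := Nat.mul_lt_mul_of_pos_left hm1 hpe
        have := Nat.mul_lt_mul_of_pos_left hm2 hpe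
        omega
      · rw [min_eq_right h.le] at hm1
        rw [max_eq_left h.le] at hm2
        have := Nat.mul_lt_mul_of_pos_left hm1 hpe
        have := Nat.mul_lt_mul_of_pos_left hm2 hpe
        omega
    have h0 : 2 ^ e * m ≠ 0 := by
      have := (mem_Ico.1 hmem).1
      omega
    have h3 : 2 ^ (e + 1) ∣ 2 ^ e * m := by
      rw [pow_succ]
      exact mul_dvd_mul_left _ (by omega)
    have h4 := (v2_iff h0).1 h3
    have h5 := hmax _ hmem
    omega

/-- the translation by `t` and the nonvanishing of the phase -/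
lemma phase {n n' v h Q : ℕ} (h1 : 1 ≤ n) (hd : n + 2 ^ (v + 2) ≤ n') (hQ0 : Q ≠ 0)
    (hQ : ∀ j ∈ Ico n n', j ∣ Q) (hv : padicValNat 2 h = v) (hh : h ≠ 0) :
    ∃ t : ℕ, (∃ k : ℕ, Q ∣ t ^ k) ∧ ¬ Q ∣ h * (∑ j ∈ Ico n n', Q / j) * t := by
  obtain ⟨j0, hj0, he, hmax⟩ := block_max h1 hd
  set e := padicValNat 2 j0 with hedef
  obtain ⟨E, Qo, hodd, hQE⟩ := Nat.exists_eq_two_pow_mul_odd hQ0
  have hval : ∀ j ∈ Ico n n', 2 ^ (E - padicValNat 2 j) ∣ Q / j ∧ padicValNat 2 j ≤ E := by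
    intro j hj
    have hj' : j ≠ 0 := by rw [mem_Ico] at hj; omega
    obtain ⟨c, hc⟩ := hQ j hj
    have hc0 : c ≠ 0 := by
      rintro rfl
      rw [mul_zero] at hc
      exact hQ0 hc
    have : Fact (Nat.Prime 2) := ⟨Nat.prime_two⟩
    have hQv : padicValNat 2 Q = E := by
      rw [hQE, padicValNat.mul (by positivity) (by rintro rfl; simp at hodd), padicValNat.prime_pow,
        padicValNat.eq_zero_of_not_dvd hodd.not_two_dvd_nat, add_zero]
    have hsum : padicValNat 2 j + padicValNat 2 c = E := by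
      rw [← padicValNat.mul hj' hc0, ← hc, hQv]
    have hdiv : Q / j = c := by rw [hc]; exact Nat.mul_div_cancel_left _ (by omega)
    rw [hdiv]
    refine ⟨(v2_iff hc0).2 (by omega), by omega⟩
  have hE : e ≤ E := (hval j0 hj0).2
  -- `2 ^ (E - e + 1)` does not divide the sum
  have hnot : ¬ 2 ^ (E - e + 1) ∣ ∑ j ∈ Ico n n', Q / j := by
    intro hdv
    rw [← add_sum_erase _ _ hj0] at hdv
    have hrest : 2 ^ (E - e + 1) ∣ ∑ j ∈ (Ico n n').erase j0, Q / j := by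
      apply dvd_sum
      intro j hj
      rw [mem_erase] at hj
      have k1 := hval j hj.2
      have k2 := hmax j hj.2 hj.1
      exact (pow_dvd_pow 2 (by omega)).trans k1.1
    have h3 := (Nat.dvd_add_left hrest).1 hdv
    have hj' : j0 ≠ 0 := by rw [mem_Ico] at hj0; omega
    obtain ⟨c, hc⟩ := hQ j0 hj0
    have hc0 : c ≠ 0 := by
      rintro rfl
      rw [mul_zero] at hc
      exact hQ0 hc
    have hdiv : Q / j0 = c := by rw [hc]; exact Nat.mul_div_cancel_left _ (by omega)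
    rw [hdiv] at h3
    have : Fact (Nat.Prime 2) := ⟨Nat.prime_two⟩
    have hQv : padicValNat 2 Q = E := by
      rw [hQE, padicValNat.mul (by positivity) (by rintro rfl; simp at hodd), padicValNat.prime_pow,
        padicValNat.eq_zero_of_not_dvd hodd.not_two_dvd_nat, add_zero]
    have hsum : padicValNat 2 j0 + padicValNat 2 c = E := by
      rw [← padicValNat.mul hj' hc0, ← hc, hQv]
    have h4 := (v2_iff hc0).1 h3
    omega
  refine ⟨2 * Qo, ⟨E + 1, ?_⟩, ?_⟩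
  · rw [mul_pow, hQE]
    exact mul_dvd_mul (pow_dvd_pow 2 (by omega)) (dvd_pow_self _ (by omega))
  · intro hdv
    set C := ∑ j ∈ Ico n n', Q / j with hC
    have hQo : 0 < Qo := by
      rcases Nat.eq_zero_or_pos Qo with h | h
      · rw [h] at hodd
        simp at hodd
      · exact h
    have k1 : 2 ^ E ∣ h * C * 2 := by
      have e1 : h * C * (2 * Qo) = (h * C * 2) * Qo := by ring
      rw [hQE, e1] at hdv
      exact Nat.dvd_of_mul_dvd_mul_right hQo hdv
    obtain ⟨v', h', hh', hhe⟩ := Nat.exists_eq_two_pow_mul_odd hh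
    have : Fact (Nat.Prime 2) := ⟨Nat.prime_two⟩
    have hvv : v' = v := by
      rw [← hv, hhe, padicValNat.mul (by positivity) (by rintro rfl; simp at hh'), padicValNat.prime_pow,
        padicValNat.eq_zero_of_not_dvd hh'.not_two_dvd_nat, add_zero]
    rw [hvv] at hhe
    have e2 : h * C * 2 = 2 ^ (v + 1) * (h' * C) := by rw [hhe, pow_succ]; ring
    have e3 : 2 ^ E = 2 ^ (v + 1) * 2 ^ (E - v - 1) := by
      rw [← pow_add]
      congr 1
      omega
    rw [e2, e3] at k1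
    have k2 : 2 ^ (E - v - 1) ∣ h' * C := Nat.dvd_of_mul_dvd_mul_left (by positivity) k1
    have k3 : 2 ^ (E - v - 1) ∣ C := by
      apply Nat.Coprime.dvd_of_dvd_mul_left _ k2
      exact Nat.Coprime.pow_left _ (Nat.coprime_two_left.2 hh')
    exact hnot ((pow_dvd_pow 2 (by omega)).trans k3)

/-- the complete sum over the units -/
lemma unit_sum {Q : ℕ} [NeZero Q] (c t : ZMod Q) (ht : IsNilpotent t) (hct : ZMod.stdAddChar (c * t) ≠ 1) :
    ∑ u : (ZMod Q)ˣ, (ZMod.stdAddChar (N := Q) (c * u) : ℂ) = 0 := by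
  have hun : ∀ u : (ZMod Q)ˣ, IsUnit ((u : ZMod Q) + t) := fun u => by
    exact ht.isUnit_add_left_of_commute u.isUnit (Commute.all _ _)
  have hun' : ∀ u : (ZMod Q)ˣ, IsUnit ((u : ZMod Q) - t) := fun u => by
    rw [sub_eq_add_neg]
    exact ht.neg.isUnit_add_left_of_commute u.isUnit (Commute.all _ _)
  let σ : (ZMod Q)ˣ ≃ (ZMod Q)ˣ :=
    { toFun := fun u => (hun u).unit
      invFun := fun u => (hun' u).unit
      left_inv := fun u => by
        apply Units.ext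
        simp
      right_inv := fun u => by
        apply Units.ext
        simp }
  have h1 : ∑ u : (ZMod Q)ˣ, (ZMod.stdAddChar (N := Q) (c * u) : ℂ) =
      ∑ u : (ZMod Q)ˣ, (ZMod.stdAddChar (N := Q) (c * (σ u : ZMod Q)) : ℂ) :=
    (Equiv.sum_comp σ fun u : (ZMod Q)ˣ => (ZMod.stdAddChar (N := Q) (c * u) : ℂ)).symm
  have h2 : ∀ u : (ZMod Q)ˣ, (ZMod.stdAddChar (N := Q) (c * (σ u : ZMod Q)) : ℂ) =
      ZMod.stdAddChar (N := Q) (c * t) * ZMod.stdAddChar (N := Q) (c * u) := by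
    intro u
    have : (σ u : ZMod Q) = u + t := (hun u).unit_spec
    rw [this, mul_add, AddChar.map_add_eq_mul, mul_comm]
  simp_rw [h2] at h1
  rw [← mul_sum] at h1
  have h3 : (1 - ZMod.stdAddChar (N := Q) (c * t)) * ∑ u : (ZMod Q)ˣ, (ZMod.stdAddChar (N := Q) (c * u) : ℂ) = 0 := by
    rw [sub_mul, one_mul, ← h1, sub_self]
  rcases mul_eq_zero.1 h3 with h4 | h4
  · exact absurd (sub_eq_zero.1 h4).symm hct
  · exact h4

/-- **the complete sum vanishes** -/
lemma zero_sum {n n' v h Q : ℕ} [NeZero Q] (h1 : 1 ≤ n) (hd : n + 2 ^ (v + 2) ≤ n')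
    (hQ : ∀ j ∈ Ico n n', j ∣ Q) (hv : padicValNat 2 h = v) (hh : h ≠ 0) :
    ∑ u : (ZMod Q)ˣ, (ZMod.stdAddChar (N := Q) (-((h : ZMod Q) * ((∑ j ∈ Ico n n', Q / j : ℕ) : ZMod Q)) *
      ((u⁻¹ : (ZMod Q)ˣ) : ZMod Q)) : ℂ) = 0 := by
  obtain ⟨t, ⟨k, hk⟩, ht⟩ := phase h1 hd (NeZero.ne Q) hQ hv hh
  have e1 : ∑ u : (ZMod Q)ˣ, (ZMod.stdAddChar (N := Q) (-((h : ZMod Q) * ((∑ j ∈ Ico n n', Q / j : ℕ) : ZMod Q)) *
      ((u⁻¹ : (ZMod Q)ˣ) : ZMod Q)) : ℂ) =
      ∑ u : (ZMod Q)ˣ, (ZMod.stdAddChar (N := Q) (-((h : ZMod Q) * ((∑ j ∈ Ico n n', Q / j : ℕ) : ZMod Q)) *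
      (u : ZMod Q)) : ℂ) :=
    Equiv.sum_comp (Equiv.inv (ZMod Q)ˣ) fun u : (ZMod Q)ˣ =>
      (ZMod.stdAddChar (N := Q) (-((h : ZMod Q) * ((∑ j ∈ Ico n n', Q / j : ℕ) : ZMod Q)) * (u : ZMod Q)) : ℂ)
  rw [e1]
  apply unit_sum _ (t : ZMod Q)
  · refine ⟨k, ?_⟩
    rw [← Nat.cast_pow, ZMod.natCast_eq_zero_iff]
    exact hk
  · intro h2
    have h3 : (ZMod.stdAddChar (N := Q) (-((h : ZMod Q) * ((∑ j ∈ Ico n n', Q / j : ℕ) : ZMod Q)) * t)) =
        ZMod.stdAddChar (N := Q) 0 := by rw [h2, AddChar.map_zero_eq_one]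
    have h4 := ZMod.injective_stdAddChar h3
    rw [neg_mul, neg_eq_zero, ← Nat.cast_mul, ← Nat.cast_mul, ZMod.natCast_eq_zero_iff] at h4
    exact ht h4

end Pool.Agent.K9h54.WQ
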