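import Pool.Agent.K9h54.WQ.Base
import Pool.Agent.K9h54.WQ.Zero
import Pool.Agent.H442R2.EHI.Fourier

/-!
# The correlation of two Wilson quotients over the primes
-/

set_option autoImplicit false

namespace Pool.Agent.K9h54.WQ

open Finset
open scoped Nat
open Pool.Agent.H469R2.NK (e norm_e e_add e_zero)

lemma e_std {Q : ℕ} [NeZero Q] (m : ℤ) : e ((m : ℝ) / Q) = ZMod.stdAddChar (N := Q) (m : ZMod Q) := by
  rw [ZMod.stdAddChar_coe]
  unfold e
  congr 1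
  push_cast
  ring

/-- reciprocity -/
lemma e_pair {p Q n n' h : ℕ} [NeZero Q] (hp : p.Prime) (h1 : 1 ≤ n) (hnn : n ≤ n') (h2 : n' ≤ p)
    (hQ : ∀ j ∈ Ico n n', j ∣ Q) (hcop : p.Coprime Q) :
    e ((h : ℝ) * ((wq n' p : ℝ) - wq n p) / p) =
      e ((h : ℝ) * ((∑ j ∈ Ico n n', Q / j : ℕ) : ℝ) / (p * Q)) *
      ZMod.stdAddChar (N := Q) (-((h : ZMod Q) * ((∑ j ∈ Ico n n', Q / j : ℕ) : ZMod Q)) * (p : ZMod Q)⁻¹) := by
  obtain ⟨m, hm⟩ := diff_dvd hp h1 hnn h2 Q hQ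
  set C := ∑ j ∈ Ico n n', Q / j with hC
  have hC' : ∑ j ∈ Ico n n', ((Q / j : ℕ) : ℤ) = (C : ℤ) := by rw [hC]; push_cast; rfl
  rw [hC'] at hm
  have hQ0 : (Q : ℝ) ≠ 0 := by exact_mod_cast NeZero.ne Q
  have hp0 : (p : ℝ) ≠ 0 := by exact_mod_cast hp.ne_zero
  have hmR : (Q : ℝ) * ((wq n' p : ℝ) - wq n p) - C = p * m := by exact_mod_cast hm
  have e1 : (h : ℝ) * ((wq n' p : ℝ) - wq n p) / p = (h : ℝ) * (C : ℝ) / (p * Q) + (((h : ℤ) * m : ℤ) : ℝ) / Q := by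
    push_cast
    field_simp
    linear_combination (h : ℝ) * hmR
  have e2 : (((h : ℤ) * m : ℤ) : ZMod Q) = -((h : ZMod Q) * (C : ZMod Q)) * (p : ZMod Q)⁻¹ := by
    have k1 := congrArg (Int.cast : ℤ → ZMod Q) hm
    push_cast at k1
    rw [ZMod.natCast_self, zero_mul, zero_sub] at k1
    have k2 : (p : ZMod Q) * (p : ZMod Q)⁻¹ = 1 := ZMod.coe_mul_inv_eq_one p hcop
    push_cast
    have k3 : (m : ZMod Q) = -(C : ZMod Q) * (p : ZMod Q)⁻¹ := by
      rw [k1]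
      linear_combination -(m : ZMod Q) * k2
    rw [k3]
    ring
  rw [e1, e_add, e_std, e2]

lemma sum_units {Q : ℕ} [NeZero Q] (F : ZMod Q → ℂ) :
    ∑ r ∈ (range Q).filter (fun r => r.Coprime Q), F (r : ZMod Q) = ∑ u : (ZMod Q)ˣ, F (u : ZMod Q) := by
  symm
  refine sum_bij (fun u _ => ((u : ZMod Q)).val) ?_ ?_ ?_ ?_
  · intro u _
    rw [mem_filter, mem_range]
    exact ⟨ZMod.val_lt _, ZMod.val_coe_unit_coprime u⟩
  · intro u _ u' _ huu
    apply Units.ext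
    exact ZMod.val_injective Q huu
  · intro r hr
    rw [mem_filter, mem_range] at hr
    refine ⟨ZMod.unitOfCoprime r hr.2, mem_univ _, ?_⟩
    rw [ZMod.coe_unitOfCoprime, ZMod.val_natCast, Nat.mod_eq_of_lt hr.1]
  · intro u _
    rw [ZMod.natCast_zmod_val]

/-- **sums of periodic functions over primes** -/
lemma prime_sum (U K : ℕ) : ∃ x0 : ℕ, ∀ x : ℕ, x0 ≤ x → ∀ (Q : ℕ) [NeZero Q], (Q : ℝ) ≤ Real.log x ^ K → ∀ y : ℕ, y ≤ x →
    ∀ F : ZMod Q → ℂ, (∀ r, ‖F r‖ ≤ 1) → ∑ u : (ZMod Q)ˣ, F (u : ZMod Q) = 0 →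
    (∀ p ∈ (Ioc y x).filter Nat.Prime, p.Coprime Q) →
    ‖∑ p ∈ (Ioc y x).filter Nat.Prime, F (p : ZMod Q)‖ ≤ Q * (x / Real.log x ^ U + y) := by
  obtain ⟨x0, h0⟩ := Pool.Agent.H442R2.EHI.Four8.sw U K
  refine ⟨x0, fun x hx Q _ hQK y hyx F hF hsum hcop => ?_⟩
  have hQ0 : 0 < Q := Nat.pos_of_ne_zero (NeZero.ne Q)
  set P := (Ioc y x).filter Nat.Prime with hP
  set R := (range Q).filter (fun r => r.Coprime Q) with hR
  have hmaps : ∀ p ∈ P, p % Q ∈ R := by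
    intro p hp
    rw [hR, mem_filter, mem_range]
    refine ⟨Nat.mod_lt _ hQ0, ?_⟩
    have := hcop p hp
    rw [Nat.Coprime, ← Nat.gcd_rec]
    exact this.symm
  have e1 : ∑ p ∈ P, F (p : ZMod Q) = ∑ r ∈ R, ∑ p ∈ P.filter (fun p => p % Q = r), F (p : ZMod Q) :=
    (sum_fiberwise_of_maps_to hmaps _).symm
  have e2 : ∀ r ∈ R, ∑ p ∈ P.filter (fun p => p % Q = r), F (p : ZMod Q) =
      F (r : ZMod Q) * ((H343E.piAP x Q r - H343E.piAP y Q r : ℝ) : ℂ) := by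
    intro r hr
    rw [hR, mem_filter, mem_range] at hr
    have k1 : ∀ p ∈ P.filter (fun p => p % Q = r), F (p : ZMod Q) = F (r : ZMod Q) := by
      intro p hp
      have := (mem_filter.1 hp).2
      rw [← this, ZMod.natCast_mod]
    rw [sum_congr rfl k1, sum_const, nsmul_eq_mul, mul_comm]
    congr 1
    have k2 : (H343E.piAP x Q r - H343E.piAP y Q r : ℝ) = ((P.filter (fun p => p % Q = r)).card : ℝ) := by
      unfold H343E.piAP
      have k3 : (Icc 1 x).filter (fun p => p.Prime ∧ p ≡ r [MOD Q]) =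
          (Icc 1 y).filter (fun p => p.Prime ∧ p ≡ r [MOD Q]) ∪ P.filter (fun p => p % Q = r) := by
        ext p
        rw [mem_union, mem_filter, mem_filter, mem_filter, hP, mem_filter, mem_Icc, mem_Icc, mem_Ioc]
        unfold Nat.ModEq
        rw [Nat.mod_eq_of_lt hr.1]
        constructor
        · rintro ⟨a, b, c⟩
          rcases le_or_gt p y with h | h
          · exact Or.inl ⟨⟨a.1, h⟩, b, c⟩
          · exact Or.inr ⟨⟨⟨h, a.2⟩, b⟩, c⟩
        · rintro (⟨a, b, c⟩ | ⟨⟨a, b⟩, c⟩)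
          · exact ⟨⟨a.1, a.2.trans hyx⟩, b, c⟩
          · exact ⟨⟨b.one_lt.le, a.2⟩, b, c⟩
      have k4 : Disjoint ((Icc 1 y).filter (fun p => p.Prime ∧ p ≡ r [MOD Q])) (P.filter (fun p => p % Q = r)) := by
        rw [disjoint_left]
        intro p h1 h2
        rw [mem_filter, mem_Icc] at h1
        rw [mem_filter, hP, mem_filter, mem_Ioc] at h2
        omega
      rw [k3, card_union_of_disjoint k4]
      push_cast
      ring
    rw [k2]
    push_cast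
    rfl
  rw [e1, sum_congr rfl e2]
  have e3 : ∑ r ∈ R, F (r : ZMod Q) * ((H343E.piAP x Q r - H343E.piAP y Q r : ℝ) : ℂ) =
      ∑ r ∈ R, F (r : ZMod Q) * ((H343E.piAP x Q r - H343E.pi1 x / (Nat.totient Q : ℝ) : ℝ) : ℂ) -
      ∑ r ∈ R, F (r : ZMod Q) * ((H343E.piAP y Q r : ℝ) : ℂ) := by
    have k1 : ∑ r ∈ R, F (r : ZMod Q) * ((H343E.pi1 x / (Nat.totient Q : ℝ) : ℝ) : ℂ) = 0 := by
      rw [← sum_mul, hR, sum_units, hsum, zero_mul]
    rw [← sub_zero (∑ r ∈ R, F (r : ZMod Q) * ((H343E.piAP x Q r - H343E.piAP y Q r : ℝ) : ℂ)), ← k1, ← sum_sub_distrib,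
      ← sum_sub_distrib]
    apply sum_congr rfl
    intro r _
    push_cast
    ring
  rw [e3]
  have hRc : (R.card : ℝ) ≤ Q := by
    have := card_filter_le (range Q) (fun r => r.Coprime Q)
    rw [card_range] at this
    exact_mod_cast this
  have b1 : ‖∑ r ∈ R, F (r : ZMod Q) * ((H343E.piAP x Q r - H343E.pi1 x / (Nat.totient Q : ℝ) : ℝ) : ℂ)‖ ≤
      Q * (x / Real.log x ^ U) := by
    refine (norm_sum_le _ _).trans ?_
    have k1 : ∀ r ∈ R, ‖F (r : ZMod Q) * ((H343E.piAP x Q r - H343E.pi1 x / (Nat.totient Q : ℝ) : ℝ) : ℂ)‖ ≤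
        x / Real.log x ^ U := by
      intro r hr
      rw [hR, mem_filter, mem_range] at hr
      rw [norm_mul, Complex.norm_real, Real.norm_eq_abs]
      have k2 := h0 x hx Q hQ0 hQK r hr.1 hr.2
      calc _ ≤ 1 * |H343E.piAP x Q r - H343E.pi1 x / (Nat.totient Q : ℝ)| :=
            mul_le_mul_of_nonneg_right (hF _) (abs_nonneg _)
        _ ≤ _ := by rw [one_mul]; exact k2
    refine (sum_le_card_nsmul _ _ _ k1).trans ?_
    rw [nsmul_eq_mul]
    rcases R.eq_empty_or_nonempty with h | ⟨r, hr⟩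
    · rw [h]
      simp only [card_empty, Nat.cast_zero, zero_mul]
      have : 0 ≤ (x : ℝ) / Real.log x ^ U := by
        apply div_nonneg (Nat.cast_nonneg _)
        apply pow_nonneg (Real.log_natCast_nonneg _)
      positivity
    · exact mul_le_mul_of_nonneg_right hRc ((norm_nonneg _).trans (k1 r hr))
  have b2 : ‖∑ r ∈ R, F (r : ZMod Q) * ((H343E.piAP y Q r : ℝ) : ℂ)‖ ≤ Q * y := by
    refine (norm_sum_le _ _).trans ?_
    have k1 : ∀ r ∈ R, ‖F (r : ZMod Q) * ((H343E.piAP y Q r : ℝ) : ℂ)‖ ≤ y := by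
      intro r _
      rw [norm_mul, Complex.norm_real, Real.norm_eq_abs]
      have k2 : 0 ≤ H343E.piAP y Q r := by unfold H343E.piAP; positivity
      have k3 : H343E.piAP y Q r ≤ y := by
        unfold H343E.piAP
        have := card_filter_le (Icc 1 y) (fun p => p.Prime ∧ p ≡ r [MOD Q])
        rw [Nat.card_Icc, Nat.add_sub_cancel] at this
        exact_mod_cast this
      rw [abs_of_nonneg k2]
      calc _ ≤ 1 * H343E.piAP y Q r := mul_le_mul_of_nonneg_right (hF _) k2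
        _ ≤ _ := by rw [one_mul]; exact k3
    refine (sum_le_card_nsmul _ _ _ k1).trans ?_
    rw [nsmul_eq_mul]
    exact mul_le_mul_of_nonneg_right hRc (Nat.cast_nonneg _)
  refine (norm_sub_le _ _).trans ?_
  rw [mul_add]
  exact add_le_add b1 b2

end Pool.Agent.K9h54.WQ
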