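import Pool.Agent.K9h54.WQ.Base

/-!
# Two Wilson quotients are congruent modulo few primes only
-/

set_option autoImplicit false

namespace Pool.Agent.K9h54.WQ

open Finset
open scoped Nat

open Classical in
/-- few primes `p ≥ n'` with `wq n p ≡ wq n' p` modulo `p` -/
lemma coll {n n' : ℕ} (h1 : 1 ≤ n) (h2 : n < n') (P : Finset ℕ) (hP : ∀ p ∈ P, p.Prime ∧ n' ≤ p)
    (hc : ∀ p ∈ P, ((wq n p : ℤ) : ZMod p) = ((wq n' p : ℤ) : ZMod p)) : P.card ≤ n' - n - 1 := by
  set Q : ℕ := ∏ j ∈ Ico n n', j with hQ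
  set C : ℕ := ∑ j ∈ Ico n n', Q / j with hC
  have hQj : ∀ j ∈ Ico n n', j ∣ Q := fun j hj => dvd_prod_of_mem _ hj
  have hj0 : ∀ j ∈ Ico n n', 0 < j := fun j hj => by rw [mem_Ico] at hj; omega
  have hQ0 : 0 < Q := prod_pos hj0
  have hterm : ∀ j ∈ Ico n n', 0 < Q / j ∧ Q / j ≤ n' ^ (n' - n - 1) := by
    intro j hj
    refine ⟨Nat.div_pos (Nat.le_of_dvd hQ0 (hQj j hj)) (hj0 j hj), ?_⟩
    have e : Q / j = ∏ i ∈ (Ico n n').erase j, i := by
      rw [hQ, ← mul_prod_erase _ _ hj, Nat.mul_div_cancel_left _ (hj0 j hj)]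
    rw [e]
    refine (prod_le_pow_card _ _ n' ?_).trans ?_
    · intro i hi
      have := mem_Ico.1 (mem_of_mem_erase hi)
      omega
    · rw [card_erase_of_mem hj, Nat.card_Ico]
  have hC0 : 0 < C := by
    apply sum_pos (fun j hj => (hterm j hj).1)
    exact ⟨n, by rw [mem_Ico]; omega⟩
  have hCle : C < n' ^ (n' - n) := by
    have k1 : C ≤ (n' - n) * n' ^ (n' - n - 1) := by
      have := sum_le_card_nsmul (Ico n n') (fun j => Q / j) _ fun j hj => (hterm j hj).2
      rwa [Nat.card_Ico, smul_eq_mul] at this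
    have k2 : (n' - n) * n' ^ (n' - n - 1) < n' * n' ^ (n' - n - 1) :=
      Nat.mul_lt_mul_of_pos_right (by omega) (Nat.pow_pos (by omega))
    have k3 : n' * n' ^ (n' - n - 1) = n' ^ (n' - n) := by
      rw [← pow_succ']
      congr 1
      omega
    omega
  have hdvd : ∀ p ∈ P, p ∣ C := by
    intro p hp
    obtain ⟨hpp, hpn⟩ := hP p hp
    have k1 := diff_dvd hpp h1 h2.le hpn Q hQj
    have k2 : (p : ℤ) ∣ wq n' p - wq n p := by
      have := hc p hp
      rw [← sub_eq_zero, ← Int.cast_sub, ZMod.intCast_zmod_eq_zero_iff_dvd] at this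
      rw [← neg_sub]
      exact (dvd_neg).2 this
    have k3 : (p : ℤ) ∣ Q * (wq n' p - wq n p) := Dvd.dvd.mul_left k2 _
    have k4 : (p : ℤ) ∣ ∑ j ∈ Ico n n', ((Q / j : ℕ) : ℤ) := by
      have := dvd_sub k3 k1
      rwa [sub_sub_cancel] at this
    rw [hC]
    exact_mod_cast k4
  have hprod : ∏ p ∈ P, p ∣ C := by
    apply prod_primes_dvd C
    · intro p hp
      exact (hP p hp).1.prime
    · exact hdvd
  have hpow : n' ^ P.card ≤ ∏ p ∈ P, p := by
    rw [← prod_const]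
    exact prod_le_prod' fun p hp => (hP p hp).2
  have hlt : n' ^ P.card < n' ^ (n' - n) := (hpow.trans (Nat.le_of_dvd hC0 hprod)).trans_lt hCle
  have := (Nat.pow_lt_pow_iff_right (show 1 < n' by omega)).1 hlt
  omega

/-- a pigeonhole principle -/
lemma pigeon {β : Type*} [DecidableEq β] (S : Finset ℕ) (f : ℕ → β) (T : Finset β) (h : ∀ n ∈ S, f n ∈ T) :
    S.card ≤ T.card + ((S ×ˢ S).filter fun q => q.1 < q.2 ∧ f q.1 = f q.2).card := by
  set S1 := S.filter fun n => ∀ m ∈ S, m < n → f m ≠ f n with hS1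
  set S2 := S.filter fun n => ¬ ∀ m ∈ S, m < n → f m ≠ f n with hS2
  have e : S1.card + S2.card = S.card := card_filter_add_card_filter_not _
  have c1 : S1.card ≤ T.card := by
    apply card_le_card_of_injOn f
    · intro n hn
      exact h n (mem_filter.1 hn).1
    · intro a ha b hb hab
      rw [mem_coe, hS1, mem_filter] at ha hb
      rcases lt_trichotomy a b with hlt | heq | hgt
      · exact absurd hab (hb.2 a ha.1 hlt)
      · exact heq
      · exact absurd hab.symm (ha.2 b hb.1 hgt)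
  have c2 : S2.card ≤ ((S ×ˢ S).filter fun q => q.1 < q.2 ∧ f q.1 = f q.2).card := by
    have hsub : S2 ⊆ ((S ×ˢ S).filter fun q => q.1 < q.2 ∧ f q.1 = f q.2).image Prod.snd := by
      intro n hn
      rw [hS2, mem_filter] at hn
      obtain ⟨hn1, hn2⟩ := hn
      push Not at hn2
      obtain ⟨m, hm, hmn, hf⟩ := hn2
      rw [mem_image]
      exact ⟨(m, n), by rw [mem_filter, mem_product]; exact ⟨⟨hm, hn1⟩, hmn, hf⟩, rfl⟩
    exact (card_le_card hsub).trans card_image_le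
  omega

open Classical in
/-- **few primes with Wilson quotients in given small sets** -/
theorem rare (N : Finset ℕ) (hN : ∀ n ∈ N, 1 ≤ n) (B x : ℕ) (T : (p : ℕ) → Finset (ZMod p))
    (hT : ∀ p, (T p).card ≤ B) :
    ∑ n ∈ N, ((Icc 1 x).filter fun p => p.Prime ∧ (∀ m ∈ N, m ≤ p) ∧ ((wq n p : ℤ) : ZMod p) ∈ T p).card ≤
      B * ((Icc 1 x).filter fun p => p.Prime).card + ∑ q ∈ (N ×ˢ N).filter (fun q => q.1 < q.2), (q.2 - q.1 - 1) := by
  set P := (Icc 1 x).filter fun p => p.Prime ∧ ∀ m ∈ N, m ≤ p with hP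
  have e1 : ∑ n ∈ N, ((Icc 1 x).filter fun p => p.Prime ∧ (∀ m ∈ N, m ≤ p) ∧ ((wq n p : ℤ) : ZMod p) ∈ T p).card =
      ∑ p ∈ P, (N.filter fun n => ((wq n p : ℤ) : ZMod p) ∈ T p).card := by
    have k := sum_card_bipartiteAbove_eq_sum_card_bipartiteBelow (s := N) (t := P)
      (fun n p => ((wq n p : ℤ) : ZMod p) ∈ T p)
    unfold bipartiteAbove bipartiteBelow at k
    rw [← k]
    apply sum_congr rfl
    intro n _
    congr 1
    ext p
    rw [hP, mem_filter, mem_filter, mem_filter]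
    tauto
  rw [e1]
  have e2 : ∀ p ∈ P, (N.filter fun n => ((wq n p : ℤ) : ZMod p) ∈ T p).card ≤
      B + (((N ×ˢ N).filter (fun q => q.1 < q.2)).filter fun q =>
        ((wq q.1 p : ℤ) : ZMod p) = ((wq q.2 p : ℤ) : ZMod p)).card := by
    intro p _
    refine (pigeon (N.filter fun n => ((wq n p : ℤ) : ZMod p) ∈ T p) (fun n => ((wq n p : ℤ) : ZMod p)) (T p)
      fun n hn => (mem_filter.1 hn).2).trans (add_le_add (hT p) (card_le_card ?_))
    intro q hq
    rw [mem_filter, mem_product, mem_filter, mem_filter] at hq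
    rw [mem_filter, mem_filter, mem_product]
    exact ⟨⟨⟨hq.1.1.1, hq.1.2.1⟩, hq.2.1⟩, hq.2.2⟩
  refine (sum_le_sum e2).trans ?_
  rw [sum_add_distrib, sum_const, smul_eq_mul]
  apply add_le_add
  · rw [mul_comm]
    apply Nat.mul_le_mul_left
    apply card_le_card
    intro p hp
    rw [hP, mem_filter] at hp
    rw [mem_filter]
    exact ⟨hp.1, hp.2.1⟩
  · have k := sum_card_bipartiteAbove_eq_sum_card_bipartiteBelow
      (s := (N ×ˢ N).filter (fun q => q.1 < q.2)) (t := P)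
      (fun q p => ((wq q.1 p : ℤ) : ZMod p) = ((wq q.2 p : ℤ) : ZMod p))
    unfold bipartiteAbove bipartiteBelow at k
    rw [← k]
    apply sum_le_sum
    intro q hq
    rw [mem_filter, mem_product] at hq
    obtain ⟨⟨q1, q2⟩, hlt⟩ := hq
    apply coll (hN _ q1) hlt
    · intro p hp
      rw [mem_filter, hP, mem_filter] at hp
      exact ⟨hp.1.2.1, hp.1.2.2 _ q2⟩
    · intro p hp
      exact (mem_filter.1 hp).2

end Pool.Agent.K9h54.WQ
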